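import Mathlib

/-!
# A pair of square-sided dice outside the known ten types

For `(p,q,r) = (2,3,7)` and `t = (2,2,1,1)`, a member of the exceptional set `S`, both
polynomials `A_t` and `B_{t̄}` have nonnegative coefficients.
-/

namespace Pool.Agent.Results.MP_eda2d2_co.SquareSidedPair

open Polynomial

/-- `M_t = φ_{pqr}^d φ_{pq}^a φ_{pr}^b φ_{qr}^c` for `t = (a,b,c,d)`. -/
noncomputable def M (p q r : ℕ) (t : ℕ × ℕ × ℕ × ℕ) : ℤ[X] :=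
  cyclotomic (p * q * r) ℤ ^ t.2.2.2 * cyclotomic (p * q) ℤ ^ t.1 *
    cyclotomic (p * r) ℤ ^ t.2.1 * cyclotomic (q * r) ℤ ^ t.2.2.1

/-- `A_t = x (φ_p φ_q)^2 M_t`. -/
noncomputable def A (p q r : ℕ) (t : ℕ × ℕ × ℕ × ℕ) : ℤ[X] :=
  X * (cyclotomic p ℤ * cyclotomic q ℤ) ^ 2 * M p q r t

/-- `B_t = x φ_r^2 M_t`. -/
noncomputable def B (p q r : ℕ) (t : ℕ × ℕ × ℕ × ℕ) : ℤ[X] :=
  X * cyclotomic r ℤ ^ 2 * M p q r t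

/-- `t̄ = (2-a, 2-b, 2-c, 2-d)`. -/
def bar (t : ℕ × ℕ × ℕ × ℕ) : ℕ × ℕ × ℕ × ℕ :=
  (2 - t.1, 2 - t.2.1, 2 - t.2.2.1, 2 - t.2.2.2)

/-- The ten tuples of `T`. -/
def InT (t : ℕ × ℕ × ℕ × ℕ) : Prop :=
  t = (2, 0, 0, 0) ∨ t = (2, 1, 0, 1) ∨ t = (2, 0, 1, 1) ∨ t = (2, 1, 1, 1) ∨
    (t.1 = 2 ∧ t.2.1 ≤ 2 ∧ t.2.2.1 ≤ 2 ∧ 2 ≤ t.2.1 + t.2.2.1 ∧ t.2.2.2 = 2)

/-- The set `S`: tuples `(a,b,c,d)` in `{0,1,2}^4` with `2 + d ≤ a + b + c ≤ 4 + d` that are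
neither in `T` nor equal to `(1,1,1,1)`. -/
def InS (t : ℕ × ℕ × ℕ × ℕ) : Prop :=
  (t.1 ≤ 2 ∧ t.2.1 ≤ 2 ∧ t.2.2.1 ≤ 2 ∧ t.2.2.2 ≤ 2) ∧
    (2 + t.2.2.2 ≤ t.1 + t.2.1 + t.2.2.1 ∧ t.1 + t.2.1 + t.2.2.1 ≤ 4 + t.2.2.2) ∧
    ¬ InT t ∧ t ≠ (1, 1, 1, 1)

lemma cyc7 : cyclotomic 7 ℤ = X ^ 6 + X ^ 5 + X ^ 4 + X ^ 3 + X ^ 2 + X + 1 := by
  have : Fact (Nat.Prime 7) := ⟨by norm_num⟩
  rw [cyclotomic_prime]
  simp [Finset.sum_range_succ]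
  ring

lemma cyc_of {n p : ℕ} (hp : p.Prime) (hn : ¬ p ∣ n) (P Q : ℤ[X])
    (hP : cyclotomic n ℤ = P) (h : expand ℤ p P = Q * P) : cyclotomic (n * p) ℤ = Q := by
  have h1 := cyclotomic_expand_eq_cyclotomic_mul hp hn ℤ
  rw [hP] at h1
  have hP0 : P ≠ 0 := by rw [← hP]; exact cyclotomic_ne_zero n ℤ
  exact mul_right_cancel₀ hP0 (h1.symm.trans h)

lemma cyc6 : cyclotomic 6 ℤ = X ^ 2 - X + 1 := by
  refine cyc_of (n := 2) (p := 3) (by norm_num) (by norm_num) (X + 1) _ (cyclotomic_two ℤ) ?_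
  simp
  ring

lemma cyc14 : cyclotomic 14 ℤ = X ^ 6 - X ^ 5 + X ^ 4 - X ^ 3 + X ^ 2 - X + 1 := by
  refine cyc_of (n := 2) (p := 7) (by norm_num) (by norm_num) (X + 1) _ (cyclotomic_two ℤ) ?_
  simp
  ring

lemma cyc21 : cyclotomic 21 ℤ =
    X ^ 12 - X ^ 11 + X ^ 9 - X ^ 8 + X ^ 6 - X ^ 4 + X ^ 3 - X + 1 := by
  refine cyc_of (n := 3) (p := 7) (by norm_num) (by norm_num) (X ^ 2 + X + 1) _
    (cyclotomic_three ℤ) ?_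
  simp
  ring

lemma cyc42 : cyclotomic 42 ℤ =
    X ^ 12 + X ^ 11 - X ^ 9 - X ^ 8 + X ^ 6 - X ^ 4 - X ^ 3 + X + 1 := by
  refine cyc_of (n := 21) (p := 2) (by norm_num) (by norm_num) _ _ cyc21 ?_
  simp
  ring

/-- Coefficients of `A_t`. -/
def la : List ℕ := [0, 1, 0, 1, 0, 1, 0, 0, 2, 0, 2, 0, 2, 0, 0, 2, 0, 2, 0, 2, 0, 0, 2, 0, 2, 0,
  2, 0, 0, 2, 0, 2, 0, 2, 0, 0, 2, 0, 2, 0, 2, 0, 0, 1, 0, 1, 0, 1]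

/-- Coefficients of `B_{t̄}`. -/
def lb : List ℕ := [0, 1, 2, 2, 2, 2, 2, 3, 2, 0, 0, 0, 0, 1, 0, 0, 2, 2, 2, 3, 2, 2, 2, 0, 0, 1,
  0, 0, 0, 0, 2, 3, 2, 2, 2, 2, 2, 1]

lemma coeff_nonneg_of (l : List ℕ) (P : ℤ[X])
    (h : P = ∑ i ∈ Finset.range l.length, (((l.getD i 0 : ℕ) : ℤ[X]) * X ^ i)) (m : ℕ) :
    0 ≤ P.coeff m := by
  rw [h, finsetSum_coeff]
  refine Finset.sum_nonneg fun i _ => ?_
  rw [← C_eq_natCast, coeff_C_mul, coeff_X_pow]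
  split_ifs <;> simp

lemma A_eq : A 2 3 7 (2, 2, 1, 1) =
    ∑ i ∈ Finset.range la.length, (((la.getD i 0 : ℕ) : ℤ[X]) * X ^ i) := by
  have e : A 2 3 7 (2, 2, 1, 1) = X * (cyclotomic 2 ℤ * cyclotomic 3 ℤ) ^ 2 *
      (cyclotomic 42 ℤ ^ 1 * cyclotomic 6 ℤ ^ 2 * cyclotomic 14 ℤ ^ 2 * cyclotomic 21 ℤ ^ 1) := rfl
  rw [e, cyclotomic_two, cyclotomic_three, cyc42, cyc6, cyc14, cyc21]
  simp only [la, List.length_cons, List.length_nil, Finset.sum_range_succ, Finset.sum_range_zero,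
    List.getD_cons_zero, List.getD_cons_succ, zero_add]
  push_cast
  ring

lemma B_eq : B 2 3 7 (bar (2, 2, 1, 1)) =
    ∑ i ∈ Finset.range lb.length, (((lb.getD i 0 : ℕ) : ℤ[X]) * X ^ i) := by
  have e : B 2 3 7 (bar (2, 2, 1, 1)) = X * cyclotomic 7 ℤ ^ 2 *
      (cyclotomic 42 ℤ ^ 1 * cyclotomic 6 ℤ ^ 0 * cyclotomic 14 ℤ ^ 0 * cyclotomic 21 ℤ ^ 1) := rfl
  rw [e, cyc7, cyc42, cyc6, cyc14, cyc21]
  simp only [lb, List.length_cons, List.length_nil, Finset.sum_range_succ, Finset.sum_range_zero,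
    List.getD_cons_zero, List.getD_cons_succ, zero_add]
  push_cast
  ring

/-- **Theorem.** There are distinct primes `p, q, r` and a tuple `t ∈ S` for which both `A_t` and
`B_{t̄}` have only nonnegative coefficients. -/
theorem result : ∃ p q r : ℕ, p.Prime ∧ q.Prime ∧ r.Prime ∧ p ≠ q ∧ p ≠ r ∧ q ≠ r ∧
    ∃ t : ℕ × ℕ × ℕ × ℕ, InS t ∧ (∀ m : ℕ, 0 ≤ (A p q r t).coeff m) ∧
      (∀ m : ℕ, 0 ≤ (B p q r (bar t)).coeff m) := by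
  refine ⟨2, 3, 7, by norm_num, by norm_num, by norm_num, by norm_num, by norm_num, by norm_num,
    (2, 2, 1, 1), ?_, coeff_nonneg_of la _ A_eq, coeff_nonneg_of lb _ B_eq⟩
  simp [InS, InT]

end Pool.Agent.Results.MP_eda2d2_co.SquareSidedPair
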